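import Mathlib

namespace Pool.Agent.Results.MP_496e47_co.Rectangle

open Finset

/-- A standard Young tableau of shape S (a set of cells (row, column)) with n cells, recorded as the
map sending an entry to its cell; the element i of Fin n stands for the entry i + 1. -/
def IsSYT {S : Finset (ℕ × ℕ)} {n : ℕ} (T : Fin n → S) : Prop :=
  Function.Bijective T ∧ ∀ a b : Fin n,
    ((T a).1.1 = (T b).1.1 ∧ (T a).1.2 < (T b).1.2 ∨
      (T a).1.2 = (T b).1.2 ∧ (T a).1.1 < (T b).1.1) → a < b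

abbrev SYT (S : Finset (ℕ × ℕ)) (n : ℕ) : Type := {T : Fin n → S // IsSYT T}

/-- The descent set: entries whose successor lies in a strictly lower row. -/
def Des {S : Finset (ℕ × ℕ)} {n : ℕ} (T : Fin n → S) : Finset (Fin n) :=
  univ.filter fun i => ∃ j : Fin n, (j : ℕ) = i + 1 ∧ (T i).1.1 < (T j).1.1

/-- Cyclic descent maps. -/
def IsCDes {S : Finset (ℕ × ℕ)} {n : ℕ} [NeZero n] (c : SYT S n → Finset (Fin n)) : Prop :=
  ∃ φ : SYT S n ≃ SYT S n, ∀ T : SYT S n,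
    (c T).filter (fun i : Fin n => i.val + 1 < n) = Des T.1 ∧
    c (φ T) = (c T).image (fun i => i + 1) ∧ c T ≠ ∅ ∧ c T ≠ univ

/-- The shape (3,3). -/
abbrev Sh : Finset (ℕ × ℕ) := range 2 ×ˢ range 3

section proofs

instance {S : Finset (ℕ × ℕ)} {n : ℕ} (T : Fin n → S) : Decidable (IsSYT T) := by
  unfold IsSYT; infer_instance

def mk (l : Fin 6 → Fin 2 × Fin 3) : Fin 6 → Sh :=
  fun i => ⟨((l i).1, (l i).2), by simp only [mem_product, mem_range, Fin.is_lt, and_self]⟩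

def tab : Fin 5 → SYT Sh 6 :=
  ![⟨mk ![(0,0),(0,1),(0,2),(1,0),(1,1),(1,2)], by decide +kernel⟩,
    ⟨mk ![(0,0),(1,0),(0,1),(0,2),(1,1),(1,2)], by decide +kernel⟩,
    ⟨mk ![(0,0),(0,1),(1,0),(1,1),(0,2),(1,2)], by decide +kernel⟩,
    ⟨mk ![(0,0),(0,1),(1,0),(0,2),(1,1),(1,2)], by decide +kernel⟩,
    ⟨mk ![(0,0),(1,0),(0,1),(1,1),(0,2),(1,2)], by decide +kernel⟩]

theorem tab_bij : Function.Bijective tab := by
  refine ⟨by decide +kernel, fun ⟨T, hT⟩ => ?_⟩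
  have key : ∀ a b : Sh, a ≠ b → ∀ c : Sh, (a ≠ c ∧ b ≠ c) → ∀ d : Sh, (a ≠ d ∧ b ≠ d ∧ c ≠ d) →
      ∀ e f : Sh, IsSYT ![a, b, c, d, e, f] → ∃ i, (tab i).1 = ![a, b, c, d, e, f] := by
    set_option synthInstance.maxSize 1000 in decide +kernel
  have e : T = ![T 0, T 1, T 2, T 3, T 4, T 5] := by ext i : 1; fin_cases i <;> rfl
  have hi := hT.1.1
  obtain ⟨i, h⟩ := key (T 0) (T 1) (hi.ne (by decide)) (T 2) ⟨hi.ne (by decide), hi.ne (by decide)⟩
    (T 3) ⟨hi.ne (by decide), hi.ne (by decide), hi.ne (by decide)⟩ (T 4) (T 5) (e ▸ hT)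
  exact ⟨i, Subtype.ext (h.trans e.symm)⟩

def c0 : Fin 5 → Finset (Fin 6) := ![{2, 5}, {0, 3}, {1, 4}, {1, 3, 5}, {0, 2, 4}]

end proofs

/-- The shape (3,3) has exactly one cyclic descent map, and its set of descent numbers is
{1,2,3}. -/
theorem result : (∃! c : SYT Sh 6 → Finset (Fin 6), IsCDes c) ∧
    Set.range (fun T : SYT Sh 6 => (Des T.1).card) = {1, 2, 3} ∧
    ¬ ∃ k : ℕ, Set.range (fun T : SYT Sh 6 => (Des T.1).card) = {k, k + 1} := by
  have hD : Set.range (fun T : SYT Sh 6 => (Des T.1).card) = {1, 2, 3} := by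
    rw [← tab_bij.2.range_comp]
    have : ((fun T : SYT Sh 6 => (Des T.1).card) ∘ tab) = ![1, 2, 2, 2, 3] := by decide +kernel
    rw [this]
    ext x
    simp
    omega
  let e := Equiv.ofBijective tab tab_bij
  refine ⟨⟨c0 ∘ e.symm, ⟨(e.symm.trans ⟨![1, 2, 0, 4, 3], ![2, 0, 1, 4, 3], by decide, by decide⟩).trans e,
    fun T => ?_⟩, ?_⟩, hD, ?_⟩
  · obtain ⟨i, rfl⟩ := e.surjective T
    simp only [Function.comp, Equiv.trans_apply, Equiv.symm_apply_apply, Equiv.coe_fn_mk]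
    change _ = Des (tab i).1 ∧ _
    revert i
    decide +kernel
  · rintro c ⟨φ, h⟩
    ext1 T
    obtain ⟨i, rfl⟩ := e.surjective T
    obtain ⟨j, hj⟩ := e.surjective (φ (e i))
    have h1 := (h (e i)).1
    have h2 := (h (φ (e i))).1
    rw [(h (e i)).2.1, ← hj] at h2
    simp only [Function.comp, Equiv.symm_apply_apply]
    have key : ∀ (i j : Fin 5) (C : Finset (Fin 6)),
        C.filter (fun i : Fin 6 => i.val + 1 < 6) = Des (tab i).1 →
        (C.image (fun i => i + 1)).filter (fun i : Fin 6 => i.val + 1 < 6) = Des (tab j).1 →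
        C = c0 i := by decide +kernel
    exact key i j _ h1 h2
  · rintro ⟨k, hk⟩
    rw [hD] at hk
    have h1 : 1 ∈ ({k, k + 1} : Set ℕ) := hk ▸ (by simp)
    have h3 : 3 ∈ ({k, k + 1} : Set ℕ) := hk ▸ (by simp)
    simp only [Set.mem_insert_iff, Set.mem_singleton_iff] at h1 h3
    omega

end Pool.Agent.Results.MP_496e47_co.Rectangle
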